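import Mathlib
import Pool.Agent.H4.QTree
import Pool.Agent.H4.RankMat

namespace Pool.Agent.Results.MP_1bbcfd_lc.Oracle

open Finset Pool.Agent.H4.QTree Pool.Agent.H4.RankMat

open Classical in
/-- The two independence oracles: the query `(true, A)` asks whether `A` is independent in `M₁`,
the query `(false, A)` whether it is independent in `M₂`. -/
noncomputable def orc {S : Type} (M₁ M₂ : Matroid S) (q : Bool × Finset S) : Bool :=
  decide (if q.1 = true then M₁.Indep (q.2 : Set S) else M₂.Indep (q.2 : Set S))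

/-- `X` has `k` elements and lies in a common base. -/
def Feas {S : Type} (M₁ M₂ : Matroid S) (k : ℕ) (X : Finset S) : Prop :=
  X.card = k ∧ ∃ B : Set S, M₁.IsBase B ∧ M₂.IsBase B ∧ (X : Set S) ⊆ B

/-- `X` is a `k`-feasible set of maximum weight. -/
def Opt {S : Type} (M₁ M₂ : Matroid S) (w : S → ℕ) (k : ℕ) (X : Finset S) : Prop :=
  Feas M₁ M₂ k X ∧ ∀ X', Feas M₁ M₂ k X' → ∑ e ∈ X', w e ≤ ∑ e ∈ X, w e

/-- A valid instance: two matroids on all of `S` with a common base of size at least `k`. -/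
def Valid {S : Type} (M₁ M₂ : Matroid S) (k : ℕ) : Prop :=
  M₁.E = Set.univ ∧ M₂.E = Set.univ ∧ ∃ B : Set S, M₁.IsBase B ∧ M₂.IsBase B ∧ (k : ℕ∞) ≤ B.encard

section general

variable {S : Type} [DecidableEq S]

theorem mat_isBase [Fintype S] {r : Finset S → ℕ} (h : IsRank r) (B : Finset S) :
    h.mat.IsBase (B : Set S) ↔ r B = B.card ∧ B.card = r univ := by
  have hr : h.mat.eRank = r univ := by
    rw [Matroid.eRank_def, h.mat_E, ← Finset.coe_univ, h.mat_eRk]
  constructor
  · intro hB
    refine ⟨(h.mat_indep B).1 hB.indep, ?_⟩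
    have := hB.encard_eq_eRank
    rw [hr, Set.encard_coe_eq_coe_finsetCard] at this
    exact_mod_cast this
  · rintro ⟨h1, h2⟩
    have hI := (h.mat_indep B).2 h1
    obtain ⟨B', hB', hsub⟩ := hI.exists_isBase_superset
    have h3 := hB'.encard_eq_eRank
    rw [hr, ← h2, ← Set.encard_coe_eq_coe_finsetCard] at h3
    have : (B : Set S) = B' := (Set.toFinite _).eq_of_subset_of_encard_le hsub h3.le
    rwa [this]

theorem cov_rank {T : Type} [DecidableEq T] (g : S → T) :
    IsRank fun A : Finset S => (A.image g).card where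
  le_card _ := card_image_le
  mono _ _ h := card_le_card (image_subset_image h)
  submod A B := by
    have h1 := card_union_add_card_inter (A.image g) (B.image g)
    have h2 : ((A ∩ B).image g).card ≤ (A.image g ∩ B.image g).card :=
      card_le_card (image_inter_subset _ _ _)
    rw [image_union]
    omega

/-- Sparse paving rank function. -/
def sp (n : ℕ) (C : Finset S → Prop) [DecidablePred C] (A : Finset S) : ℕ :=
  if C A then n - 1 else min A.card n

theorem sp_rank (n : ℕ) (C : Finset S → Prop) [DecidablePred C] (h1 : ∀ A, C A → A.card = n)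
    (h2 : ∀ A B, C A → C B → A ≠ B → (A ∩ B).card + 2 ≤ n) : IsRank (sp n C) where
  le_card A := by
    unfold sp; split_ifs with h
    · have := h1 A h; omega
    · omega
  mono A B hAB := by
    have h3 := card_le_card hAB
    unfold sp; split_ifs with h h' h'
    · omega
    · have := h1 A h; omega
    · have h4 := h1 B h'
      have : A ≠ B := by rintro rfl; exact h h'
      have := card_lt_card (hAB.ssubset_of_ne this)
      omega
    · omega
  submod := by
    have hle : ∀ A, sp n C A ≤ min A.card n := by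
      intro A; unfold sp; split_ifs with h
      · have := h1 A h; omega
      · omega
    have key : ∀ A B, C A → ¬ C B → sp n C (A ∪ B) + sp n C (A ∩ B) ≤ sp n C A + sp n C B := by
      intro A B hA hB
      by_cases hBA : B ⊆ A
      · rw [union_eq_left.2 hBA, inter_eq_right.2 hBA]
      by_cases hAB : A ⊆ B
      · rw [union_eq_right.2 hAB, inter_eq_left.2 hAB]; omega
      have a := hle (A ∪ B)
      have b := hle (A ∩ B)
      have c : (A ∩ B).card < A.card :=
        card_lt_card (inter_subset_left.ssubset_of_ne fun h => hAB (inter_eq_left.1 h))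
      have d : (A ∩ B).card < B.card :=
        card_lt_card (inter_subset_right.ssubset_of_ne fun h => hBA (inter_eq_right.1 h))
      have e := h1 A hA
      have f : sp n C A = n - 1 := if_pos hA
      have g : sp n C B = min B.card n := if_neg hB
      omega
    intro A B
    by_cases hA : C A <;> by_cases hB : C B
    · by_cases hAB : A = B
      · subst hAB; simp
      · have a := hle (A ∪ B)
        have b := hle (A ∩ B)
        have c := h2 A B hA hB hAB
        have f : sp n C A = n - 1 := if_pos hA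
        have g : sp n C B = n - 1 := if_pos hB
        omega
    · exact key A B hA hB
    · have := key B A hB hA
      rw [union_comm, inter_comm] at this
      omega
    · have a := hle (A ∪ B)
      have b := hle (A ∩ B)
      have c := card_union_add_card_inter A B
      have d : (A ∩ B).card ≤ A.card := card_le_card inter_subset_left
      have d' : (A ∩ B).card ≤ B.card := card_le_card inter_subset_right
      have f : sp n C A = min A.card n := if_neg hA
      have g : sp n C B = min B.card n := if_neg hB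
      omega

theorem sum_rank {T : Type} [DecidableEq T] {r : Finset S → ℕ} {r' : Finset T → ℕ}
    (h : IsRank r) (h' : IsRank r') :
    IsRank fun A : Finset (S ⊕ T) => r A.toLeft + r' A.toRight where
  le_card A := by
    have := card_toLeft_add_card_toRight (u := A)
    have := h.le_card A.toLeft
    have := h'.le_card A.toRight
    omega
  mono A B hAB := add_le_add (h.mono _ _ (toLeft_subset_toLeft hAB))
    (h'.mono _ _ (toRight_subset_toRight hAB))
  submod A B := by
    have := h.submod A.toLeft B.toLeft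
    have := h'.submod A.toRight B.toRight
    rw [toLeft_union, toLeft_inter, toRight_union, toRight_inter]
    omega

end general

section construction

variable (m : ℕ)

abbrev Pt := Fin (2 * m) × Bool
abbrev Gr := Pt m ⊕ Pt m

variable {m}

def TT (I : Finset (Fin (2 * m))) : Finset (Pt m) := univ.filter fun x => x.2 = decide (x.1 ∈ I)

theorem card_TT (I : Finset (Fin (2 * m))) : (TT I).card = 2 * m := by
  have : TT I = (univ : Finset (Fin (2 * m))).map
      ⟨fun i => (i, decide (i ∈ I)), fun a b h => (Prod.mk.inj h).1⟩ := by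
    ext ⟨i, b⟩
    simp only [TT, mem_filter, mem_univ, true_and, mem_map, Function.Embedding.coeFn_mk,
      Prod.mk.injEq]
    exact ⟨fun h => ⟨i, rfl, h.symm⟩, fun ⟨j, h1, h2⟩ => by subst h1; exact h2.symm⟩
  rw [this]; simp

theorem TT_inj {I J : Finset (Fin (2 * m))} (h : TT I = TT J) : I = J := by
  ext i
  have : (i, true) ∈ TT I ↔ (i, true) ∈ TT J := by rw [h]
  simpa [TT] using this

theorem TT_inter {I J : Finset (Fin (2 * m))} (h : I.card = J.card) (hne : I ≠ J) :
    (TT I ∩ TT J).card + 2 ≤ 2 * m := by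
  obtain ⟨a, ha, ha'⟩ : ∃ a ∈ I, a ∉ J := by
    by_contra hc
    push Not at hc
    exact hne (eq_of_subset_of_card_le hc h.ge)
  obtain ⟨b, hb, hb'⟩ : ∃ b ∈ J, b ∉ I := by
    by_contra hc
    push Not at hc
    exact hne (eq_of_subset_of_card_le hc h.le).symm
  have h1 : TT I ∩ TT J ⊆ TT I \ {(a, true), (b, false)} := by
    intro x hx
    simp only [TT, mem_inter, mem_filter, mem_univ, true_and, mem_sdiff, mem_insert,
      mem_singleton, not_or] at hx ⊢
    refine ⟨hx.1, ?_, ?_⟩
    · rintro rfl; simp [ha'] at hx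
    · rintro rfl; simp [hb] at hx
  have h2 : ({(a, true), (b, false)} : Finset (Pt m)) ⊆ TT I := by
    intro x hx
    simp only [mem_insert, mem_singleton] at hx
    rcases hx with rfl | rfl <;> simp [TT, ha, hb']
  have h3 := card_le_card h1
  have h4 := card_sdiff_add_card_eq_card h2
  have h5 : ({(a, true), (b, false)} : Finset (Pt m)).card = 2 := card_pair (by simp)
  have h6 := card_TT I
  omega

def CC (o : Option (Finset (Fin (2 * m)))) (A : Finset (Pt m)) : Prop :=
  ∃ I : Finset (Fin (2 * m)), I.card = m ∧ some I ≠ o ∧ A = TT I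

instance (o : Option (Finset (Fin (2 * m)))) : DecidablePred (CC o) := fun A => by
  unfold CC; infer_instance

def r1 (o : Option (Finset (Fin (2 * m)))) (A : Finset (Gr m)) : ℕ :=
  sp (2 * m) (CC o) A.toLeft + (A.toRight.image Prod.fst).card

def r2 (A : Finset (Gr m)) : ℕ := (A.image (Sum.elim id id)).card

theorem r1_rank (o : Option (Finset (Fin (2 * m)))) : IsRank (r1 o) :=
  sum_rank (sp_rank (2 * m) (CC o) (by rintro A ⟨I, _, _, rfl⟩; exact card_TT I) (by
    rintro A B ⟨I, hI, _, rfl⟩ ⟨J, hJ, _, rfl⟩ hne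
    exact TT_inter (hI.trans hJ.symm) fun h => hne (by rw [h]))) (cov_rank Prod.fst)

theorem r2_rank : IsRank (r2 (m := m)) := cov_rank _

def M1 (o : Option (Finset (Fin (2 * m)))) : Matroid (Gr m) := (r1_rank o).mat
def M2 (m : ℕ) : Matroid (Gr m) := (r2_rank (m := m)).mat

def ww (m : ℕ) : Gr m → ℕ
  | .inl x => if x.2 = true then 3 else 2
  | .inr x => if x.2 = true then 2 else 0

theorem sum_S (f : Gr m → ℕ) (X : Finset (Gr m)) :
    ∑ e ∈ X, f e = ∑ i : Fin (2 * m),
      (((if Sum.inl (i, true) ∈ X then f (Sum.inl (i, true)) else 0) +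
      (if Sum.inl (i, false) ∈ X then f (Sum.inl (i, false)) else 0)) +
      ((if Sum.inr (i, true) ∈ X then f (Sum.inr (i, true)) else 0) +
      (if Sum.inr (i, false) ∈ X then f (Sum.inr (i, false)) else 0))) := by
  have h := Finset.sum_ite_mem univ X f
  rw [univ_inter] at h
  rw [← h, Fintype.sum_sum_type, Fintype.sum_prod_type, Fintype.sum_prod_type,
    ← Finset.sum_add_distrib]
  simp only [Fintype.sum_bool]

def BB (I : Finset (Fin (2 * m))) : Finset (Gr m) := (TT I).disjSum (TT I)ᶜ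

theorem r2_eq (A : Finset (Gr m)) : r2 A = (A.toLeft ∪ A.toRight).card := by
  unfold r2
  congr 1
  ext x
  simp only [mem_image, mem_union, mem_toLeft, mem_toRight]
  constructor
  · rintro ⟨e | e, he, rfl⟩
    · exact Or.inl he
    · exact Or.inr he
  · rintro (h | h)
    · exact ⟨_, h, rfl⟩
    · exact ⟨_, h, rfl⟩

theorem r2_univ : r2 (univ : Finset (Gr m)) = 4 * m := by
  have : (univ : Finset (Gr m)).toLeft ∪ (univ : Finset (Gr m)).toRight = univ := by
    ext x; simp
  rw [r2_eq, this]; simp; ring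

theorem r1_univ (hm : 1 ≤ m) (o : Option (Finset (Fin (2 * m)))) :
    r1 o (univ : Finset (Gr m)) = 4 * m := by
  have h1 : (univ : Finset (Gr m)).toLeft = univ := by ext x; simp
  have h2 : (univ : Finset (Gr m)).toRight.image Prod.fst = univ := by
    ext i; simp
  have h3 : (univ : Finset (Pt m)).card = 2 * m * 2 := by simp
  unfold r1 sp
  rw [h1, h2, if_neg]
  · rw [h3]; simp; omega
  · rintro ⟨I, _, _, h⟩
    have := card_TT I
    rw [← h] at this
    omega

theorem base_BB (hm : 1 ≤ m) (o : Option (Finset (Fin (2 * m)))) (I : Finset (Fin (2 * m)))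
    (hI : ¬ CC o (TT I)) :
    (M1 o).IsBase (BB I : Set (Gr m)) ∧ (M2 m).IsBase (BB I : Set (Gr m)) ∧
      (BB I).card = 4 * m := by
  have h1 : (BB I).toLeft = TT I := by simp [BB]
  have h2 : (BB I).toRight = (TT I)ᶜ := by simp [BB]
  have h3 : (BB I).card = 4 * m := by
    rw [BB, card_disjSum, card_compl, card_TT]; simp; omega
  have h4 : ((TT I)ᶜ).image Prod.fst = univ := by
    ext i
    simp only [mem_image, mem_compl, mem_univ, iff_true]
    exact ⟨(i, !decide (i ∈ I)), by simp [TT], rfl⟩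
  refine ⟨(mat_isBase _ _).2 ⟨?_, ?_⟩, (mat_isBase _ _).2 ⟨?_, ?_⟩, h3⟩
  · unfold r1 sp
    rw [h1, h2, if_neg hI, h4, h3, card_TT]; simp; omega
  · rw [h3, r1_univ hm]
  · rw [r2_eq, h1, h2, h3]; simp; ring
  · rw [h3, r2_univ]

theorem base_form (o : Option (Finset (Fin (2 * m)))) (B : Finset (Gr m))
    (h1 : (M1 o).IsBase (B : Set (Gr m))) (h2 : (M2 m).IsBase (B : Set (Gr m))) :
    ∃ I, B = BB I ∧ (1 ≤ m → ¬ CC o (TT I)) := by
  obtain ⟨a1, -⟩ := (mat_isBase _ _).1 h1
  obtain ⟨b1, b2⟩ := (mat_isBase _ _).1 h2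
  rw [r2_univ] at b2
  rw [r2_eq] at b1
  have c1 := card_toLeft_add_card_toRight (u := B)
  have c2 : (B.toRight.image Prod.fst).card ≤ B.toRight.card := card_image_le
  have c3 : (B.toRight.image Prod.fst).card ≤ 2 * m := by
    simpa using card_le_univ (B.toRight.image Prod.fst)
  have c4 : sp (2 * m) (CC o) B.toLeft ≤ 2 * m := by unfold sp; split_ifs <;> omega
  unfold r1 at a1
  have d1 : B.toRight.image Prod.fst = univ := eq_univ_of_card _ (by simp; omega)
  have d2 : B.toLeft ∪ B.toRight = univ := eq_univ_of_card _ (by simp; omega)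
  have d3 : B.toLeft ∩ B.toRight = ∅ := by
    have := card_union_add_card_inter B.toLeft B.toRight
    exact card_eq_zero.1 (by omega)
  have c5 : sp (2 * m) (CC o) B.toLeft ≤ B.toLeft.card := by
    unfold sp; split_ifs with h
    · obtain ⟨I, _, _, h⟩ := h
      rw [h, card_TT]; omega
    · omega
  have d4 : Set.InjOn Prod.fst (B.toRight : Set (Pt m)) := card_image_iff.1 (by omega)
  have e1 : ∀ x, x ∈ B.toRight ↔ x ∉ B.toLeft := by
    intro x
    have u : x ∈ B.toLeft ∪ B.toRight := by rw [d2]; exact mem_univ _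
    have v : x ∉ B.toLeft ∩ B.toRight := by rw [d3]; exact notMem_empty _
    simp only [mem_union, mem_inter] at u v
    tauto
  have e2 : B.toLeft = TT (univ.filter fun i => (i, true) ∈ B.toLeft) := by
    ext ⟨i, b⟩
    have u : i ∈ B.toRight.image Prod.fst := by rw [d1]; exact mem_univ _
    obtain ⟨⟨j, c⟩, hj, rfl⟩ := mem_image.1 u
    have v : ¬ ((j, true) ∈ B.toRight ∧ (j, false) ∈ B.toRight) := by
      rintro ⟨v1, v2⟩
      simpa using d4 (mem_coe.2 v1) (mem_coe.2 v2) rfl
    rw [e1] at hj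
    rw [e1, e1] at v
    simp only [TT, mem_filter, mem_univ, true_and]
    cases b <;> cases c <;> simp only [Bool.false_eq, Bool.true_eq, decide_eq_false_iff_not,
      decide_eq_true_eq] <;> tauto
  refine ⟨univ.filter fun i => (i, true) ∈ B.toLeft, ?_, fun hm hC => ?_⟩
  · rw [BB, ← e2]
    ext e
    rcases e with x | x
    · simp
    · have := e1 x
      simpa using this
  · rw [← e2] at hC
    have : sp (2 * m) (CC o) B.toLeft = 2 * m - 1 := if_pos hC
    omega

def up (X : Finset (Gr m)) : Finset (Fin (2 * m)) := univ.filter fun i => Sum.inl (i, true) ∈ X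

theorem w_BB (I : Finset (Fin (2 * m))) : ∑ e ∈ BB I, ww m e + I.card = 8 * m := by
  have h1 : I.card = ∑ i : Fin (2 * m), if i ∈ I then 1 else 0 := by simp
  rw [sum_S, h1, ← Finset.sum_add_distrib]
  rw [Finset.sum_congr rfl (g := fun _ => 4)]
  · simp; ring
  · intro i _
    by_cases h : i ∈ I <;> simp [BB, TT, ww, h]

theorem w_le (X : Finset (Gr m)) : ∑ e ∈ X, ww m e ≤ 2 * X.card + (up X).card := by
  have h1 : (up X).card = ∑ i : Fin (2 * m), if Sum.inl (i, true) ∈ X then 1 else 0 := by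
    simp [up]
  rw [h1, card_eq_sum_ones X, sum_S, sum_S, Finset.mul_sum, ← Finset.sum_add_distrib]
  refine Finset.sum_le_sum fun i _ => ?_
  simp only [ww]
  split_ifs <;> simp_all

theorem notCC (θ : Finset (Fin (2 * m))) : ¬ CC (some θ) (TT θ) := by
  rintro ⟨I, _, h1, h2⟩
  exact h1 (by rw [TT_inj h2])

theorem opt_up (hm : 1 ≤ m) (θ : Finset (Fin (2 * m))) (hθ : θ.card = m) (X : Finset (Gr m))
    (h : Opt (M1 (some θ)) (M2 m) (ww m) (3 * m) X) : θ = up X := by
  obtain ⟨⟨hk, B, hB1, hB2, hXB⟩, hopt⟩ := h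
  lift B to Finset (Gr m) using Set.toFinite B
  obtain ⟨I, rfl, hI⟩ := base_form _ B hB1 hB2
  have hXB' : X ⊆ BB I := by exact_mod_cast hXB
  set X0 : Finset (Gr m) := (BB θ).filter fun e => ww m e ≠ 0 with hX0
  have a1 : ∑ e ∈ X0, ww m e = ∑ e ∈ BB θ, ww m e := Finset.sum_filter_ne_zero _
  have a2 : X0.card + θ.card = 4 * m := by
    have h1 : θ.card = ∑ i : Fin (2 * m), if i ∈ θ then 1 else 0 := by simp
    rw [card_eq_sum_ones X0, sum_S, h1, ← Finset.sum_add_distrib]
    rw [Finset.sum_congr rfl (g := fun _ => 2)]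
    · simp; ring
    · intro i _
      by_cases h : i ∈ θ <;> simp [hX0, BB, TT, ww, h]
  obtain ⟨b1, b2, -⟩ := base_BB hm (some θ) θ (notCC θ)
  have a3 := hopt X0 ⟨by omega, _, b1, b2, by exact_mod_cast filter_subset _ _⟩
  have a4 := w_BB θ
  have a5 := w_BB I
  have a6 := w_le X
  have a7 : ∑ e ∈ X, ww m e ≤ ∑ e ∈ BB I, ww m e := Finset.sum_le_sum_of_subset hXB'
  have a8 : up X ⊆ I := by
    intro i hi
    have := hXB' (mem_filter.1 hi).2
    simpa [BB, TT] using this
  have a9 := card_le_card a8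
  have a10 : up X = I := eq_of_subset_of_card_le a8 (by omega)
  rw [a10]
  by_contra hne
  exact hI hm ⟨I, by omega, fun h => hne (Option.some.inj h).symm, rfl⟩

theorem hide (θ : Finset (Fin (2 * m))) (q : Bool × Finset (Gr m))
    (h : orc (M1 (some θ)) (M2 m) q ≠ orc (M1 none) (M2 m) q) : q.2.toLeft = TT θ := by
  by_contra hne
  apply h
  have : r1 (some θ) q.2 = r1 none q.2 := by
    have hiff : CC (some θ) q.2.toLeft ↔ CC none q.2.toLeft := by
      constructor
      · rintro ⟨I, h1, _, h3⟩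
        exact ⟨I, h1, by simp, h3⟩
      · rintro ⟨I, h1, _, h3⟩
        exact ⟨I, h1, fun h => hne (by rw [h3, Option.some.inj h]), h3⟩
    unfold r1 sp
    simp only [hiff]
  have hi : (M1 (some θ)).Indep (q.2 : Set (Gr m)) ↔ (M1 none).Indep (q.2 : Set (Gr m)) := by
    unfold M1
    rw [IsRank.mat_indep, IsRank.mat_indep, this]
  unfold orc
  rw [propext hi]

theorem valid (hm : 1 ≤ m) (o : Option (Finset (Fin (2 * m)))) : Valid (M1 o) (M2 m) (3 * m) := by
  obtain ⟨b1, b2, b3⟩ := base_BB hm o ∅ (by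
    rintro ⟨I, h1, _, h3⟩
    rw [← TT_inj h3] at h1
    simp at h1
    omega)
  refine ⟨rfl, rfl, _, b1, b2, ?_⟩
  rw [Set.encard_coe_eq_coe_finsetCard, b3]
  exact_mod_cast (by omega : 3 * m ≤ 4 * m)

end construction

open Classical in
theorem expo (m : ℕ) (hm : 1 ≤ m) (J : Type) [Fintype J]
    (T : J → Alg (Bool × Finset (Gr m)) Bool (Finset (Gr m))) (q : ℕ)
    (hq : ∀ (j : J) (M₁ M₂ : Matroid (Gr m)), Valid M₁ M₂ (3 * m) → (T j).cost (orc M₁ M₂) ≤ q) :
    ∃ M₁ M₂ : Matroid (Gr m), Valid M₁ M₂ (3 * m) ∧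
      (univ.filter fun j => Opt M₁ M₂ (ww m) (3 * m) ((T j).run (orc M₁ M₂))).card *
        (2 * m).choose m ≤ Fintype.card J * (q + 1) := by
  have hc : Fintype.card {I : Finset (Fin (2 * m)) // I.card = m} = (2 * m).choose m := by
    simp
  haveI : Nonempty {I : Finset (Fin (2 * m)) // I.card = m} := by
    rw [← Fintype.card_pos_iff, hc]
    exact Nat.choose_pos (by omega)
  obtain ⟨θ, hθ⟩ := hide_family (Θ := {I : Finset (Fin (2 * m)) // I.card = m})
    (orc (M1 none) (M2 m)) (fun θ => orc (M1 (some θ.1)) (M2 m))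
    (fun θ X => Opt (M1 (some θ.1)) (M2 m) (ww m) (3 * m) X) 1 1 q
    (fun x => card_le_one.2 fun a ha b hb => Subtype.ext (TT_inj
      ((hide _ x (by simpa only [mem_filter, mem_univ, true_and] using ha)).symm.trans
        (hide _ x (by simpa only [mem_filter, mem_univ, true_and] using hb)))))
    (fun X => card_le_one.2 fun a ha b hb => Subtype.ext
      ((opt_up hm _ a.2 X (mem_filter.1 ha).2).trans (opt_up hm _ b.2 X (mem_filter.1 hb).2).symm))
    T (fun j => hq j _ _ (valid hm none))
  refine ⟨_, _, valid hm (some θ.1), ?_⟩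
  rw [hc, mul_one] at hθ
  exact hθ

theorem grow (c : ℕ) : ∃ m : ℕ, 1 ≤ m ∧ (8 * m + 2) ^ c + 1 < (2 * m).choose m := by
  have h := tendsto_pow_const_div_const_pow_of_one_lt (c + 1) (r := (4 : ℝ)) (by norm_num)
  have h1 : ∀ᶠ n : ℕ in Filter.atTop, (n : ℝ) ^ (c + 1) / 4 ^ n < 1 / (2 * 10 ^ c) :=
    h.eventually (gt_mem_nhds (by positivity))
  obtain ⟨n, hn, hn2⟩ := (h1.and (Filter.eventually_ge_atTop 4)).exists
  refine ⟨n, by omega, ?_⟩
  rw [div_lt_div_iff₀ (by positivity) (by positivity), one_mul] at hn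
  have h2 : n ^ (c + 1) * (2 * 10 ^ c) < 4 ^ n := by exact_mod_cast hn
  have h3 : (8 * n + 2) ^ c ≤ n ^ c * 10 ^ c := by
    rw [← mul_pow]; exact Nat.pow_le_pow_left (by omega) _
  have h4 := Nat.four_pow_lt_mul_centralBinom n hn2
  rw [Nat.centralBinom_eq_two_mul_choose] at h4
  have h5 : 1 ≤ (8 * n + 2) ^ c := Nat.one_le_pow _ _ (by omega)
  have h6 : n * (2 * (n ^ c * 10 ^ c)) < n * (2 * n).choose n := by
    calc _ = n ^ (c + 1) * (2 * 10 ^ c) := by ring
      _ < _ := h2.trans h4
  have h7 := Nat.lt_of_mul_lt_mul_left h6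
  omega

open Classical in
theorem result :
    (∀ m : ℕ, 1 ≤ m → ∃ (S : Type) (_ : Fintype S) (w : S → ℕ) (k : ℕ),
      Fintype.card S = 8 * m ∧ (∀ e, w e ≤ 3) ∧
      ∀ (J : Type) [Fintype J] (T : J → Alg (Bool × Finset S) Bool (Finset S)) (q : ℕ),
        (∀ (j : J) (M₁ M₂ : Matroid S), Valid M₁ M₂ k → (T j).cost (orc M₁ M₂) ≤ q) →
        ∃ M₁ M₂ : Matroid S, Valid M₁ M₂ k ∧
          (univ.filter fun j => Opt M₁ M₂ w k ((T j).run (orc M₁ M₂))).card *
            (2 * m).choose m ≤ Fintype.card J * (q + 1)) ∧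
    ¬ ∃ c : ℕ, ∀ (S : Type) [Fintype S] (w : S → ℕ) (k : ℕ), (∀ e, w e ≤ 3) →
      ∃ T : Alg (Bool × Finset S) Bool (Finset S), ∀ M₁ M₂ : Matroid S, Valid M₁ M₂ k →
        Opt M₁ M₂ w k (T.run (orc M₁ M₂)) ∧
          T.cost (orc M₁ M₂) ≤ (Fintype.card S + 2) ^ c := by
  have hcard : ∀ m, Fintype.card (Gr m) = 8 * m := by
    intro m; simp; ring
  have hw : ∀ m e, ww m e ≤ 3 := by
    rintro m (x | x) <;> simp only [ww] <;> split_ifs <;> omega
  refine ⟨fun m hm => ⟨Gr m, inferInstance, ww m, 3 * m, hcard m, hw m, expo m hm⟩, ?_⟩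
  rintro ⟨c, hc⟩
  obtain ⟨m, hm, hp⟩ := grow c
  obtain ⟨T, hT⟩ := hc (Gr m) (ww m) (3 * m) (hw m)
  obtain ⟨M₁, M₂, hM, h⟩ := expo m hm Unit (fun _ => T) ((8 * m + 2) ^ c) (fun _ M₁ M₂ hM => by
    have := (hT M₁ M₂ hM).2
    rwa [hcard] at this)
  rw [Finset.filter_true_of_mem fun _ _ => (hT M₁ M₂ hM).1] at h
  simp at h
  omega

end Pool.Agent.Results.MP_1bbcfd_lc.Oracle
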